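import Pool.Agent.Helper10.CR.Goals2

/-!
# Packet CR-EXI: the choice of bases in case I
-/

universe u

namespace Pool.Agent.Helper62.CR

open Pool.Agent.Helper10.Width Pool.Agent.Helper72.Width Pool.Agent.Helper78.SD
open Pool.Agent.Helper10.CR

namespace EXI

variable {k : Type u} [Field k] (X : RS k 4)

/-- The domain of the second relation. -/
def VD : Submodule k X.V where
  carrier := {y | ∃ s, ![0, 0, y, s] ∈ X.Rel}
  zero_mem' := ⟨0, by
    have : (![0, 0, 0, 0] : Fin 4 → X.V) = 0 := by
      ext i; fin_cases i <;> rfl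
    rw [this]
    exact zero_mem _⟩
  add_mem' := by
    rintro a b ⟨s, hs⟩ ⟨t, ht⟩
    refine ⟨s + t, ?_⟩
    have := add_mem hs ht
    convert this using 1
    ext i
    fin_cases i <;> simp
  smul_mem' := by
    rintro c a ⟨s, hs⟩
    refine ⟨c • s, ?_⟩
    have := Submodule.smul_mem _ c hs
    convert this using 1
    ext i
    fin_cases i <;> simp

/-- The first relation. -/
def Wr : Submodule k (Fin 2 → X.V) where
  carrier := {w | ![w 0, -w 1, 0, 0] ∈ X.Rel}
  zero_mem' := by
    have : (![(0 : Fin 2 → X.V) 0, -(0 : Fin 2 → X.V) 1, 0, 0] : Fin 4 → X.V) = 0 := by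
      ext i; fin_cases i <;> simp
    show (![(0 : Fin 2 → X.V) 0, -(0 : Fin 2 → X.V) 1, 0, 0] : Fin 4 → X.V) ∈ X.Rel
    rw [this]
    exact zero_mem _
  add_mem' := by
    intro a b ha hb
    have ha' : (![a 0, -a 1, 0, 0] : Fin 4 → X.V) ∈ X.Rel := ha
    have hb' : (![b 0, -b 1, 0, 0] : Fin 4 → X.V) ∈ X.Rel := hb
    have := add_mem ha' hb'
    show (![(a + b) 0, -(a + b) 1, 0, 0] : Fin 4 → X.V) ∈ X.Rel
    convert this using 1
    ext i
    fin_cases i <;> simp [add_comm]
  smul_mem' := by
    intro c a ha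
    have ha' : (![a 0, -a 1, 0, 0] : Fin 4 → X.V) ∈ X.Rel := ha
    have := Submodule.smul_mem _ c ha'
    show (![(c • a) 0, -(c • a) 1, 0, 0] : Fin 4 → X.V) ∈ X.Rel
    convert this using 1
    ext i
    fin_cases i <;> simp

end EXI

open EXI in
/-- Existence of the data for the module in case I. -/
theorem goalExI : GoalExI.{u} := by
  intro k _ X _
  let B := Module.Basis.ofVectorSpace k (VD X)
  obtain ⟨C, hC⟩ := Submodule.exists_isCompl (VD X)
  let BA := Module.Basis.ofVectorSpace k C
  let e := (BA.repr.symm.prodCongr B.repr.symm).trans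
    (Submodule.prodEquivOfIsCompl C (VD X) hC.symm)
  have he : ∀ z, e (0, z) = (B.repr.symm z : X.V) := by
    intro z
    show Submodule.prodEquivOfIsCompl C (VD X) hC.symm (BA.repr.symm 0, B.repr.symm z) = _
    rw [Submodule.coe_prodEquivOfIsCompl']
    simp
  choose s hs using fun i => (B i).2
  let σ := Finsupp.linearCombination k s
  have hσ : ∀ z, ![0, 0, e (0, z), σ z] ∈ X.Rel := by
    intro z
    rw [he]
    induction z using Finsupp.induction_linear with
    | zero =>
      have : (![0, 0, ((B.repr.symm 0 : VD X) : X.V), σ 0] : Fin 4 → X.V) = 0 := by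
        ext i; fin_cases i <;> simp
      rw [this]
      exact zero_mem _
    | add f g hf hg =>
      have := add_mem hf hg
      convert this using 1
      ext i
      fin_cases i <;> simp
    | single i a =>
      have := Submodule.smul_mem _ a (hs i)
      convert this using 1
      ext j
      fin_cases j <;> simp [σ]
  refine ⟨⟨_, _, e, Wr X, LinearMap.pi ![0, -σ]⟩, ⟨fun w => Iff.rfl, fun z => rfl, fun z => ?_,
    fun y t h => ?_⟩⟩
  · have h1 : -((LinearMap.pi ![0, -σ] : _ →ₗ[k] (Fin 2 → X.V)) z 1) = σ z := by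
      show -(-σ z) = σ z
      rw [neg_neg]
    show ![0, 0, e (0, z), -((LinearMap.pi ![0, -σ] : _ →ₗ[k] (Fin 2 → X.V)) z 1)] ∈ X.Rel
    rw [h1]
    exact hσ z
  · refine ⟨B.repr ⟨y, t, h⟩, ?_⟩
    show e (0, B.repr ⟨y, t, h⟩) = y
    rw [he]
    simp

end Pool.Agent.Helper62.CR
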