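import Pool.Agent.Helper10.CR.Goals1

/-!
# Packet CR-LOC: nested diamonds of pp conditions survive in a localization
-/

universe u

namespace Pool.Agent.Helper62.CR

open Pool.Agent.Helper10.Width Pool.Agent.Helper72.Width Pool.Agent.Helper78.SD
open Pool.Agent.Helper10.CR

namespace LOC

section map

variable {S S' : Type u} [Ring S] [Ring S'] (π : S →+* S')

theorem sol_pmap_sup (φ ψ : PP S) (M : Type u) [AddCommGroup M] [Module S' M] :
    (pmap π (φ.sup ψ)).sol M = (pmap π φ).sol M ⊔ (pmap π ψ).sol M := by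
  ext x
  have h1 : (pmap π φ).sol M = @PP.sol S _ φ M _ (Module.compHom M π) := rfl
  have h2 : (pmap π ψ).sol M = @PP.sol S _ ψ M _ (Module.compHom M π) := rfl
  rw [h1, h2, mem_pmap]
  letI := Module.compHom M π
  rw [PP.sol_sup]

theorem toL_pmap_le {φ ψ : PP S} (h : toL (∅ : Set (PP S × PP S)) φ ≤ toL ∅ ψ) :
    toL (∅ : Set (PP S' × PP S')) (pmap π φ) ≤ toL ∅ (pmap π ψ) := by
  rw [toL_le] at h ⊢
  intro M x hx
  rw [mem_pmap] at hx ⊢
  letI := Module.compHom M.1 π
  exact h ⟨ModuleCat.of S M.1, fun q hq => absurd hq (Set.notMem_empty _)⟩ hx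

theorem toL_pmap_eq {φ ψ : PP S} (h : toL (∅ : Set (PP S × PP S)) φ = toL ∅ ψ) :
    toL (∅ : Set (PP S' × PP S')) (pmap π φ) = toL ∅ (pmap π ψ) :=
  le_antisymm (toL_pmap_le π h.le) (toL_pmap_le π h.ge)

theorem toL_pmap_inf {φ ψ χ : PP S}
    (h : toL (∅ : Set (PP S × PP S)) φ ⊓ toL ∅ ψ = toL ∅ χ) :
    toL (∅ : Set (PP S' × PP S')) (pmap π φ) ⊓ toL ∅ (pmap π ψ) = toL ∅ (pmap π χ) := by
  rw [← toL_inf] at h
  rw [← toL_pmap_eq π h]
  exact (Subtype.ext (funext fun M => sol_pmap_inf π φ ψ M.1)).symm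

theorem toL_pmap_sup {φ ψ χ : PP S}
    (h : toL (∅ : Set (PP S × PP S)) φ ⊔ toL ∅ ψ = toL ∅ χ) :
    toL (∅ : Set (PP S' × PP S')) (pmap π φ) ⊔ toL ∅ (pmap π ψ) = toL ∅ (pmap π χ) := by
  rw [← toL_sup] at h
  rw [← toL_pmap_eq π h]
  exact (Subtype.ext (funext fun M => sol_pmap_sup π φ ψ M.1)).symm

end map

variable {R : Type u} [CommRing R]

theorem smul_sol (φ : PP R) {N : Type u} [AddCommGroup N] [Module R N] {x : N} (r : R)
    (hx : x ∈ φ.sol N) : r • x ∈ φ.sol N := φ.map_sol (LinearMap.lsmul R N r) hx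

/-- The multipliers from one condition into another. -/
def J (φ ψ : PP R) : Ideal R where
  carrier := {r | ∀ (N : Type u) [AddCommGroup N] [Module R N] (x : N),
    x ∈ φ.sol N → r • x ∈ ψ.sol N}
  zero_mem' := by
    intro N _ _ x _
    rw [zero_smul]
    exact zero_mem _
  add_mem' := by
    intro a b ha hb N _ _ x hx
    rw [add_smul]
    exact add_mem (ha N x hx) (hb N x hx)
  smul_mem' := by
    intro a b hb N _ _ x hx
    rw [smul_eq_mul, mul_smul]
    exact smul_sol ψ a (hb N x hx)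

theorem mem_J {φ ψ : PP R} {r : R} : r ∈ J φ ψ ↔ ∀ (N : Type u) [AddCommGroup N] [Module R N]
    (x : N), x ∈ φ.sol N → r • x ∈ ψ.sol N := Iff.rfl

theorem toL_le_sol {φ ψ : PP R} (h : toL (∅ : Set (PP R × PP R)) φ ≤ toL ∅ ψ)
    (N : Type u) [AddCommGroup N] [Module R N] {x : N} (hx : x ∈ φ.sol N) : x ∈ ψ.sol N := by
  rw [toL_le] at h
  exact h ⟨ModuleCat.of R N, fun q hq => absurd hq (Set.notMem_empty _)⟩ hx

theorem le_of_one_mem {φ ψ : PP R} (h : (1 : R) ∈ J φ ψ) :
    toL (∅ : Set (PP R × PP R)) φ ≤ toL ∅ ψ := by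
  rw [toL_le]
  intro M x hx
  have := h M.1 x hx
  rwa [one_smul] at this

/-- The row of the free realization. -/
def row (φ : PP R) (i : Fin φ.n) : Unit ⊕ Fin φ.k → R :=
  Sum.elim (fun _ => φ.a i) (φ.b i)

/-- The free realization. -/
abbrev FR (φ : PP R) : Type u :=
  (Unit ⊕ Fin φ.k → R) ⧸ Submodule.span R (Set.range (row φ))

/-- The generator. -/
noncomputable def gen (φ : PP R) : FR φ :=
  Submodule.Quotient.mk (Pi.single (Sum.inl ()) 1)

theorem row_eq (φ : PP R) (i : Fin φ.n) :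
    row φ i = φ.a i • (Pi.single (Sum.inl ()) 1 : Unit ⊕ Fin φ.k → R) +
      ∑ j, φ.b i j • (Pi.single (Sum.inr j) 1 : Unit ⊕ Fin φ.k → R) := by
  ext x
  rcases x with x | j
  · simp [row, Finset.sum_apply]
  · simp [row, Finset.sum_apply, Pi.single_apply]

theorem gen_mem (φ : PP R) : gen φ ∈ φ.sol (FR φ) := by
  rw [PP.mem_sol]
  refine ⟨fun j => Submodule.Quotient.mk (Pi.single (Sum.inr j) 1), fun i => ?_⟩
  have h : (Submodule.mkQ (Submodule.span R (Set.range (row φ)))) (row φ i) = 0 := by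
    rw [Submodule.mkQ_apply, Submodule.Quotient.mk_eq_zero]
    exact Submodule.subset_span ⟨i, rfl⟩
  rw [row_eq, map_add, map_smul, map_sum] at h
  simp only [map_smul] at h
  exact h

theorem exists_lift (φ : PP R) {N : Type u} [AddCommGroup N] [Module R N] {x : N}
    (hx : x ∈ φ.sol N) : ∃ g : FR φ →ₗ[R] N, g (gen φ) = x := by
  rw [PP.mem_sol] at hx
  obtain ⟨y, hy⟩ := hx
  have hf : ∀ v : Unit ⊕ Fin φ.k → R, Fintype.linearCombination R (Sum.elim (fun _ => x) y) v =
      v (Sum.inl ()) • x + ∑ j, v (Sum.inr j) • y j := by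
    intro v
    rw [Fintype.linearCombination_apply, Fintype.sum_sum_type]
    simp
  have hle : Submodule.span R (Set.range (row φ)) ≤
      LinearMap.ker (Fintype.linearCombination R (Sum.elim (fun _ => x) y)) := by
    rw [Submodule.span_le]
    rintro _ ⟨i, rfl⟩
    rw [SetLike.mem_coe, LinearMap.mem_ker, hf]
    exact hy i
  refine ⟨Submodule.liftQ _ (Fintype.linearCombination R (Sum.elim (fun _ => x) y)) hle, ?_⟩
  rw [gen, Submodule.liftQ_apply, hf]
  simp

/-- The main step. -/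
theorem exists_mem_J {M : Ideal R} [M.IsPrime] {φ ψ : PP R}
    (h : toL (∅ : Set (PP (Localization.AtPrime M) × PP (Localization.AtPrime M)))
        (pmap (algebraMap R (Localization.AtPrime M)) φ) ≤
      toL ∅ (pmap (algebraMap R (Localization.AtPrime M)) ψ)) : ∃ r ∈ J φ ψ, r ∉ M := by
  classical
  set f := LocalizedModule.mkLinearMap M.primeCompl (FR φ) with hfdef
  have hc : f (gen φ) ∈ (pmap (algebraMap R (Localization.AtPrime M)) φ).sol
      (LocalizedModule M.primeCompl (FR φ)) := by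
    obtain ⟨y, hy⟩ := (PP.mem_sol).1 (φ.map_sol f (gen_mem φ))
    refine ⟨y, fun i => ?_⟩
    have := hy i
    show algebraMap R (Localization.AtPrime M) (φ.a i) • f (gen φ) +
      ∑ j, algebraMap R (Localization.AtPrime M) (φ.b i j) • y j = 0
    simpa only [algebraMap_smul] using this
  rw [toL_le] at h
  have h2 := h ⟨ModuleCat.of (Localization.AtPrime M) (LocalizedModule M.primeCompl (FR φ)),
    fun q hq => absurd hq (Set.notMem_empty _)⟩ hc
  obtain ⟨z, hz⟩ := h2
  have hz' : ∀ i, ψ.a i • f (gen φ) + ∑ j, ψ.b i j • (z j : LocalizedModule M.primeCompl (FR φ)) =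
      0 := by
    intro i
    have := hz i
    have h3 : algebraMap R (Localization.AtPrime M) (ψ.a i) • f (gen φ) +
      ∑ j, algebraMap R (Localization.AtPrime M) (ψ.b i j) •
        (z j : LocalizedModule M.primeCompl (FR φ)) = 0 := this
    simpa only [algebraMap_smul] using h3
  obtain ⟨t, ht⟩ := IsLocalizedModule.exist_integer_multiples_of_finite M.primeCompl f
    (fun j : Fin ψ.k => (z j : LocalizedModule M.primeCompl (FR φ)))
  choose y hy using ht
  have key : ∀ i, f (ψ.a i • (t : R) • gen φ + ∑ j, ψ.b i j • y j) = 0 := by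
    intro i
    have e : f (ψ.a i • (t : R) • gen φ + ∑ j, ψ.b i j • y j) = (t : R) •
        (ψ.a i • f (gen φ) + ∑ j, ψ.b i j • (z j : LocalizedModule M.primeCompl (FR φ))) := by
      rw [map_add, map_sum, map_smul, map_smul, smul_add, Finset.smul_sum, smul_comm (t : R)]
      congr 1
      refine Finset.sum_congr rfl fun j _ => ?_
      rw [map_smul, hy j, smul_comm]
    rw [e, hz' i, smul_zero]
  have key2 : ∀ i, ∃ s : M.primeCompl, s • (ψ.a i • (t : R) • gen φ + ∑ j, ψ.b i j • y j) = 0 :=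
    fun i => (IsLocalizedModule.eq_zero_iff M.primeCompl f).1 (key i)
  choose s hs using key2
  have hS : ∀ i, (∏ i, (s i : R)) • (ψ.a i • (t : R) • gen φ + ∑ j, ψ.b i j • y j) = 0 := by
    intro i
    have hi := hs i
    rw [Submonoid.smul_def] at hi
    rw [← Finset.prod_erase_mul _ _ (Finset.mem_univ i), mul_smul, hi, smul_zero]
  have hmem : ((∏ i, (s i : R)) * (t : R)) • gen φ ∈ ψ.sol (FR φ) := by
    refine ⟨fun j => (∏ i, (s i : R)) • y j, fun i => ?_⟩
    rw [← hS i, smul_add, Finset.smul_sum, mul_smul, smul_comm (ψ.a i)]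
    congr 1
    exact Finset.sum_congr rfl fun j _ => smul_comm _ _ _
  refine ⟨(∏ i, (s i : R)) * (t : R), ?_, ?_⟩
  · rw [mem_J]
    intro N _ _ x hx
    obtain ⟨g, hg⟩ := exists_lift φ hx
    have := ψ.map_sol g hmem
    rwa [map_smul, hg] at this
  · have h1 : (∏ i, (s i : R)) ∈ M.primeCompl := prod_mem fun i _ => (s i).2
    exact mul_mem h1 t.2

end LOC

open LOC in
/-- Nested diamonds of pp conditions over a commutative ring survive in a localization at some
maximal ideal. -/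
theorem goalLocalize : GoalLocalize.{u} := by
  intro R _ hN
  obtain ⟨p, u, v, w, q, h⟩ := hN
  choose P hP using fun n => toL_surjective (∅ : Set (PP R × PP R)) (p n)
  choose U hU using fun n => toL_surjective (∅ : Set (PP R × PP R)) (u n)
  choose V hV using fun n => toL_surjective (∅ : Set (PP R × PP R)) (v n)
  choose W hW using fun n => toL_surjective (∅ : Set (PP R × PP R)) (w n)
  choose Q hQ using fun n => toL_surjective (∅ : Set (PP R × PP R)) (q n)
  obtain rfl : (fun n => toL ∅ (P n)) = p := funext hP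
  obtain rfl : (fun n => toL ∅ (U n)) = u := funext hU
  obtain rfl : (fun n => toL ∅ (V n)) = v := funext hV
  obtain rfl : (fun n => toL ∅ (W n)) = w := funext hW
  obtain rfl : (fun n => toL ∅ (Q n)) = q := funext hQ
  have hmono : Monotone fun n => J (U n) (P n) := by
    refine monotone_nat_of_le_succ fun n r hr => ?_
    have hr' := mem_J.1 hr
    refine mem_J.2 ?_
    intro N _ _ x hx
    have h1 : toL (∅ : Set (PP R × PP R)) (U (n + 1)) ≤ toL ∅ (Q (n + 1)) := by
      have := (h (n + 1)).1.uv'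
      exact le_sup_left.trans this.le
    exact toL_le_sol (h n).2.1 N (hr' N x (toL_le_sol (h n).2.2 N (toL_le_sol h1 N hx)))
  have hne : (⨆ n, J (U n) (P n)) ≠ ⊤ := by
    intro htop
    have h1 : (1 : R) ∈ ⨆ n, J (U n) (P n) := by rw [htop]; trivial
    rw [Submodule.mem_iSup_of_directed _ hmono.directed_le] at h1
    obtain ⟨n, hn⟩ := h1
    exact (h n).1.lt.not_ge (le_of_one_mem hn)
  obtain ⟨M, hM, hle⟩ := Ideal.exists_le_maximal _ hne
  haveI := hM
  haveI hMp : M.IsPrime := hM.isPrime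
  refine ⟨M, hMp, ?_⟩
  let π := algebraMap R (Localization.AtPrime M)
  refine ⟨fun n => toL ∅ (pmap π (P n)), fun n => toL ∅ (pmap π (U n)),
    fun n => toL ∅ (pmap π (V n)), fun n => toL ∅ (pmap π (W n)),
    fun n => toL ∅ (pmap π (Q n)), fun n => ⟨⟨?_, ?_, ?_, ?_, ?_, ?_, ?_⟩, ?_, ?_⟩⟩
  · refine lt_of_le_not_ge (toL_pmap_le π (h n).1.lt.le) fun hc => ?_
    obtain ⟨r, hr, hrM⟩ := exists_mem_J (M := M) hc
    exact hrM (hle (le_iSup (fun n => J (U n) (P n)) n hr))
  · exact toL_pmap_inf π (h n).1.uv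
  · exact toL_pmap_inf π (h n).1.uw
  · exact toL_pmap_inf π (h n).1.vw
  · exact toL_pmap_sup π (h n).1.uv'
  · exact toL_pmap_sup π (h n).1.uw'
  · exact toL_pmap_sup π (h n).1.vw'
  · exact toL_pmap_le π (h n).2.1
  · exact toL_pmap_le π (h n).2.2

end Pool.Agent.Helper62.CR
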