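import Pool.Agent.Helper85.CR.Goals

/-!
# Project CR, packet PEND: a pendant edge
-/

set_option autoImplicit false

namespace Pool.Agent.Helper62.CR

open Finset Equiv Helper28.VF Helper28.PL Pool.Agent.Helper85.CR

section
variable {D : Type}

/-- the new rotation -/
noncomputable def sg (σ : Perm D) (a : D) : Perm (D ⊕ Bool) := by
  classical
  exact
  { toFun := Sum.elim (fun d => if σ d = a then Sum.inr false else Sum.inl (σ d))
      (fun c => if c then Sum.inr true else Sum.inl a)
    invFun := Sum.elim (fun d => if d = a then Sum.inr false else Sum.inl (σ.symm d))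
      (fun c => if c then Sum.inr true else Sum.inl (σ.symm a))
    left_inv := by
      rintro (d | c)
      · simp only [Sum.elim_inl]
        by_cases h1 : σ d = a
        · subst h1; simp
        · simp [h1]
      · cases c
        · simp
        · simp
    right_inv := by
      rintro (d | c)
      · simp only [Sum.elim_inl]
        by_cases h1 : d = a
        · simp [h1]
        · simp [h1]
      · cases c
        · simp
        · simp }

lemma sg_a {σ : Perm D} {a : D} {d : D} (h : σ d = a) :
    sg σ a (Sum.inl d) = Sum.inr false := by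
  simp [sg, h]

lemma sg_o {σ : Perm D} {a : D} {d : D} (h1 : σ d ≠ a) :
    sg σ a (Sum.inl d) = Sum.inl (σ d) := by
  simp [sg, h1]

lemma sg_f {σ : Perm D} {a : D} : sg σ a (Sum.inr false) = Sum.inl a := by
  simp [sg]

lemma sg_t {σ : Perm D} {a : D} : sg σ a (Sum.inr true) = Sum.inr true := by
  simp [sg]

/-- the new involution -/
def al (α : Perm D) (hα : ∀ d, α (α d) = d) : Perm (D ⊕ Bool) where
  toFun := Sum.elim (fun d => Sum.inl (α d)) (fun c => Sum.inr (!c))
  invFun := Sum.elim (fun d => Sum.inl (α d)) (fun c => Sum.inr (!c))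
  left_inv := by rintro (d | c) <;> simp [hα]
  right_inv := by rintro (d | c) <;> simp [hα]

lemma sc_step {X : Type} {π : Perm X} (x : X) : π.SameCycle x (π x) := ⟨1, by simp⟩

lemma inv_sc {X Y : Type} [Finite X] (π : Perm X) (f : X → Y) (hf : ∀ x, f (π x) = f x)
    (x y : X) (h : π.SameCycle x y) : f x = f y := by
  obtain ⟨n, rfl⟩ := h.exists_nat_pow_eq
  clear h
  induction n with
  | zero => simp
  | succ n ih => rw [pow_succ', Perm.mul_apply, hf]; exact ih

end

theorem pend_map {D V E F : Type} [Fintype D] [Fintype V] [Fintype E] [Fintype F]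
    (M : PM D V E F) (a : D) :
    ∃ M' : PM (D ⊕ Bool) (Option V) (Option E) F,
      (∀ d, M'.vt (Sum.inl d) = some (M.vt d)) ∧ M'.vt (Sum.inr false) = some (M.vt a) ∧
      M'.vt (Sum.inr true) = none ∧ (∀ d, M'.α (Sum.inl d) = Sum.inl (M.α d)) ∧
      M'.α (Sum.inr false) = Sum.inr true ∧ M'.α (Sum.inr true) = Sum.inr false ∧
      (∀ d, M.σ (M.α d) = a → M'.σ (M'.α (Sum.inl d)) = Sum.inr false) ∧
      (∀ d, M.σ (M.α d) ≠ a → M'.σ (M'.α (Sum.inl d)) = Sum.inl (M.σ (M.α d))) ∧
      M'.σ (M'.α (Sum.inr false)) = Sum.inr true ∧ M'.σ (M'.α (Sum.inr true)) = Sum.inl a := by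
  classical
  set σ' := sg M.σ a with hσ'
  set α' := al M.α M.α_inv with hα'
  have hαl : ∀ d, α' (Sum.inl d) = Sum.inl (M.α d) := fun d => rfl
  have hαf : α' (Sum.inr false) = Sum.inr true := rfl
  have hαt : α' (Sum.inr true) = Sum.inr false := rfl
  have ef : σ' (Sum.inr false) = Sum.inl a := sg_f (σ := M.σ)
  have et : σ' (Sum.inr true) = Sum.inr true := sg_t (σ := M.σ)
  set p : Perm D := M.σ * M.α with hp
  set p' : Perm (D ⊕ Bool) := σ' * α' with hp'
  have pa : ∀ d, p d = a → p' (Sum.inl d) = Sum.inr false := fun d h => sg_a h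
  have po : ∀ d, p d ≠ a → p' (Sum.inl d) = Sum.inl (p d) := fun d h1 => sg_o h1
  have pf : p' (Sum.inr false) = Sum.inr true := et
  have pt : p' (Sum.inr true) = Sum.inl a := ef
  have hfcp : ∀ d, M.fc (p d) = M.fc d := fun d => ((M.fc_iff d (p d)).2 (sc_step d)).symm
  have hvtσ : ∀ d, M.vt (M.σ d) = M.vt d := fun d => ((M.vt_iff d (M.σ d)).2 (sc_step d)).symm
  set vt' : D ⊕ Bool → Option V :=
    Sum.elim (fun d => some (M.vt d)) (fun c => if c then none else some (M.vt a)) with hvt'
  set ed' : D ⊕ Bool → Option E := Sum.elim (fun d => some (M.ed d)) (fun _ => none) with hed'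
  set fc' : D ⊕ Bool → F := Sum.elim (fun d => M.fc d) (fun _ => M.fc a) with hfc'
  have vl : ∀ d, vt' (Sum.inl d) = some (M.vt d) := fun d => rfl
  have vf : vt' (Sum.inr false) = some (M.vt a) := rfl
  have vt_t : vt' (Sum.inr true) = none := rfl
  -- invariance
  have vinv : ∀ x, vt' (σ' x) = vt' x := by
    rintro (d | c)
    · by_cases h1 : M.σ d = a
      · rw [hσ', sg_a h1, vf, vl, ← h1, hvtσ]
      · rw [hσ', sg_o h1, vl, vl, hvtσ]
    · cases c
      · rw [ef, vl, vf]
      · rw [et]
  have finv : ∀ x, fc' (p' x) = fc' x := by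
    rintro (d | c)
    · by_cases h1 : p d = a
      · rw [pa d h1]
        change M.fc a = M.fc d
        rw [← h1, hfcp]
      · rw [po d h1]
        exact hfcp d
    · cases c
      · rw [pf]; rfl
      · rw [pt]; rfl
  -- cycles of the rotation
  have sf : σ'.SameCycle (Sum.inr false) (Sum.inl a) := by
    have s2 := sc_step (π := σ') (Sum.inr false : D ⊕ Bool)
    rwa [ef] at s2
  have vstep : ∀ d, σ'.SameCycle (Sum.inl d) (Sum.inl (M.σ d)) := by
    intro d
    have s1 := sc_step (π := σ') (Sum.inl d)
    by_cases h1 : M.σ d = a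
    · rw [hσ', sg_a h1, ← hσ'] at s1
      rw [h1]
      exact s1.trans sf
    · rw [hσ', sg_o h1, ← hσ'] at s1
      exact s1
  have vcyc : ∀ d e, M.σ.SameCycle d e → σ'.SameCycle (Sum.inl d) (Sum.inl e) := by
    intro d e h
    obtain ⟨n, rfl⟩ := h.exists_nat_pow_eq
    clear h
    induction n with
    | zero => simpa using Perm.SameCycle.refl _ _
    | succ n ih =>
      rw [pow_succ', Perm.mul_apply]
      exact ih.trans (vstep _)
  have vrep : ∀ x : D ⊕ Bool, x = Sum.inr true ∨
      ∃ d, σ'.SameCycle x (Sum.inl d) ∧ vt' x = some (M.vt d) := by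
    rintro (d | c)
    · exact Or.inr ⟨d, Perm.SameCycle.refl _ _, rfl⟩
    · cases c
      · exact Or.inr ⟨a, sf, vf⟩
      · exact Or.inl rfl
  -- cycles of the face permutation
  have st : p'.SameCycle (Sum.inr true) (Sum.inl a) := by
    have := sc_step (π := p') (Sum.inr true : D ⊕ Bool)
    rwa [pt] at this
  have sff : p'.SameCycle (Sum.inr false) (Sum.inl a) := by
    have := sc_step (π := p') (Sum.inr false : D ⊕ Bool)
    rw [pf] at this
    exact this.trans st
  have fstep : ∀ d, p'.SameCycle (Sum.inl d) (Sum.inl (p d)) := by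
    intro d
    have s1 := sc_step (π := p') (Sum.inl d)
    by_cases h1 : p d = a
    · rw [pa d h1] at s1
      rw [h1]
      exact s1.trans sff
    · rw [po d h1] at s1
      exact s1
  have fcyc : ∀ d e, p.SameCycle d e → p'.SameCycle (Sum.inl d) (Sum.inl e) := by
    intro d e h
    obtain ⟨n, rfl⟩ := h.exists_nat_pow_eq
    clear h
    induction n with
    | zero => simpa using Perm.SameCycle.refl _ _
    | succ n ih =>
      rw [pow_succ', Perm.mul_apply]
      exact ih.trans (fstep _)
  have frep : ∀ x : D ⊕ Bool, ∃ d, p'.SameCycle x (Sum.inl d) ∧ fc' x = M.fc d := by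
    rintro (d | c)
    · exact ⟨d, Perm.SameCycle.refl _ _, rfl⟩
    · cases c
      · exact ⟨a, sff, rfl⟩
      · exact ⟨a, st, rfl⟩
  refine ⟨{ σ := σ', α := α', vt := vt', ed := ed', fc := fc', α_inv := ?_, α_ne := ?_,
            vt_iff := ?_, ed_iff := ?_, fc_iff := ?_, vt_surj := ?_, ed_surj := ?_, fc_surj := ?_,
            conn := ?_, euler := ?_ }, vl, vf, vt_t, hαl, hαf, hαt, pa, po, pf, pt⟩
  · rintro (d | c)
    · rw [hαl, hαl, M.α_inv]
    · cases c <;> rfl
  · rintro (d | c)
    · rw [hαl]; intro h; exact M.α_ne d (Sum.inl_injective h)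
    · cases c
      · rw [hαf]; simp
      · rw [hαt]; simp
  · intro x y
    constructor
    · intro h
      rcases vrep x with rfl | ⟨d, h1, h2⟩
      · rcases vrep y with rfl | ⟨e, h3, h4⟩
        · exact Perm.SameCycle.refl _ _
        · rw [vt_t, h4] at h
          exact absurd h (by simp)
      · rcases vrep y with rfl | ⟨e, h3, h4⟩
        · rw [vt_t, h2] at h
          exact absurd h (by simp)
        · have : M.vt d = M.vt e := by
            rw [h2, h4] at h
            exact Option.some_injective _ h
          exact (h1.trans (vcyc d e ((M.vt_iff d e).1 this))).trans h3.symm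
    · exact inv_sc σ' vt' vinv x y
  · rintro (d | c) (e | c')
    · rw [hαl]
      simp only [hed', Sum.elim_inl, Option.some.injEq, Sum.inl.injEq]
      exact M.ed_iff d e
    · rw [hαl]; simp [hed']
    · cases c <;> simp [hed', hαf, hαt]
    · cases c <;> cases c' <;> simp [hed', hαf, hαt]
  · intro x y
    constructor
    · intro h
      obtain ⟨d, h1, h2⟩ := frep x
      obtain ⟨e, h3, h4⟩ := frep y
      have : M.fc d = M.fc e := by rw [← h2, ← h4, h]
      exact (h1.trans (fcyc d e ((M.fc_iff d e).1 this))).trans h3.symm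
    · exact inv_sc p' fc' finv x y
  · rintro (_ | v)
    · exact ⟨Sum.inr true, rfl⟩
    · obtain ⟨d, rfl⟩ := M.vt_surj v
      exact ⟨Sum.inl d, rfl⟩
  · rintro (_ | e)
    · exact ⟨Sum.inr true, rfl⟩
    · obtain ⟨d, rfl⟩ := M.ed_surj e
      exact ⟨Sum.inl d, rfl⟩
  · intro f
    obtain ⟨d, rfl⟩ := M.fc_surj f
    exact ⟨Sum.inl d, rfl⟩
  · intro P hne hPσ hPα
    have q1 : ∀ d, P (Sum.inl d) → P (Sum.inl (M.σ d)) := by
      intro d h
      by_cases h1 : M.σ d = a
      · have e1 : σ' (Sum.inl d) = Sum.inr false := sg_a h1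
        have := hPσ _ (hPσ _ h)
        rw [e1, ef] at this
        rwa [h1]
      · have e1 : σ' (Sum.inl d) = Sum.inl (M.σ d) := sg_o h1
        have := hPσ _ h
        rwa [e1] at this
    have q2 : ∀ d, P (Sum.inl d) → P (Sum.inl (M.α d)) := by
      intro d h
      have := hPα _ h
      rwa [hαl] at this
    have q0 : ∃ d, P (Sum.inl d) := by
      obtain ⟨(d | c), h⟩ := hne
      · exact ⟨d, h⟩
      · cases c
        · have := hPσ _ h
          rw [ef] at this
          exact ⟨a, this⟩
        · have := hPσ _ (hPα _ h)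
          rw [hαt, ef] at this
          exact ⟨a, this⟩
    have q := M.conn (fun d => P (Sum.inl d)) q0 q1 q2
    have qf : P (Sum.inr false) := by
      have e1 : σ' (Sum.inl (M.σ.symm a)) = Sum.inr false := sg_a (by simp)
      have := hPσ _ (q (M.σ.symm a))
      rwa [e1] at this
    rintro (d | c)
    · exact q d
    · cases c
      · exact qf
      · have := hPα _ qf
        rwa [hαf] at this
  · have := M.euler
    simp only [Fintype.card_option]
    omega

/-- the chain condition for the new face -/
theorem chain_aux {D : Type} (R : D → D → Prop) (R' : D ⊕ Bool → D ⊕ Bool → Prop) (a : D)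
    (h1 : ∀ d, R d a → R' (Sum.inl d) (Sum.inr false))
    (h2 : ∀ d e, R d e → e ≠ a → R' (Sum.inl d) (Sum.inl e))
    (h3 : R' (Sum.inr false) (Sum.inr true)) (s : List D) :
    ∀ x, List.IsChain R (x :: (s ++ [a])) → a ∉ s →
      List.IsChain R' (Sum.inl x :: (s.map Sum.inl ++ [Sum.inr false, Sum.inr true])) := by
  induction s with
  | nil =>
    intro x h _
    simp only [List.nil_append, List.isChain_cons_cons, List.isChain_singleton, and_true] at h
    simp only [List.map_nil, List.nil_append, List.isChain_cons_cons, List.isChain_singleton,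
      and_true]
    exact ⟨h1 x h, h3⟩
  | cons y s ih =>
    intro x h ha
    rw [List.cons_append, List.isChain_cons_cons] at h
    rw [List.map_cons, List.cons_append, List.isChain_cons_cons]
    rw [List.mem_cons, not_or] at ha
    exact ⟨h2 x y h.1 (Ne.symm ha.1), ih y h.2 ha.2⟩

theorem gPEND : StmtPEND := by
  intro W S A u l w hdisc hw
  obtain ⟨D, V, E, F, iD, iV, iE, iF, M, nm, b, hs, hinj, hran, hadj, hface, hmap⟩ := hdisc
  obtain ⟨hbne, hnd, hch⟩ := hface
  cases b with
  | nil => exact absurd rfl hbne
  | cons a t =>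
    simp only [List.map_cons, List.cons.injEq] at hmap
    obtain ⟨hu, hl⟩ := hmap
    obtain ⟨M', vl, vf, vt', al', af, at', pa, po, pf, pt⟩ := pend_map M a
    let nm' : Option V → W := fun o => o.elim w nm
    have nn : nm' none = w := rfl
    have ns : ∀ v, nm' (some v) = nm v := fun v => rfl
    have hwr : ∀ v, nm v ≠ w := by
      intro v hv
      apply hw
      rw [← hran]
      exact ⟨v, hv⟩
    refine ⟨D ⊕ Bool, Option V, Option E, F, inferInstance, inferInstance, inferInstance, iF, M',
      nm', Sum.inr true :: Sum.inl a :: (t.map Sum.inl ++ [Sum.inr false]), ⟨?_, ?_⟩, ?_, ?_, ?_,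
      ⟨?_, ?_, ?_⟩, ?_⟩
    · rintro (d | c)
      · rw [al', vl, vl]
        intro h
        exact hs.noloop d (Option.some_injective _ h)
      · cases c
        · rw [af, vt', vf]
          simp
        · rw [at', vt', vf]
          simp
    · rintro (d | c) (e | c') h1 h2
      · rw [vl, vl] at h1
        rw [al', al', vl, vl] at h2
        rw [hs.simple d e (Option.some_injective _ h1) (Option.some_injective _ h2)]
      · cases c'
        · rw [al', af, vl, vt'] at h2
          exact absurd h2 (by simp)
        · rw [vl, vt'] at h1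
          exact absurd h1 (by simp)
      · cases c
        · rw [al', af, vl, vt'] at h2
          exact absurd h2 (by simp)
        · rw [vl, vt'] at h1
          exact absurd h1 (by simp)
      · cases c <;> cases c'
        · rfl
        · rw [vf, vt'] at h1
          exact absurd h1 (by simp)
        · rw [vf, vt'] at h1
          exact absurd h1 (by simp)
        · rfl
    · rintro (_ | x) (_ | y) h
      · rfl
      · exact absurd h.symm (hwr y)
      · exact absurd h (hwr x)
      · rw [hinj h]
    · ext x
      constructor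
      · rintro ⟨(_ | v), rfl⟩
        · exact Or.inl rfl
        · right
          rw [← hran]
          exact ⟨v, rfl⟩
      · rintro (rfl | hx)
        · exact ⟨none, rfl⟩
        · rw [← hran] at hx
          obtain ⟨v, rfl⟩ := hx
          exact ⟨some v, rfl⟩
    · intro x y
      unfold addE
      constructor
      · rintro (h | ⟨rfl, rfl⟩ | ⟨rfl, rfl⟩)
        · obtain ⟨d, h1, h2⟩ := (hadj x y).1 h
          refine ⟨Sum.inl d, ?_, ?_⟩
          · rw [vl, ns, h1]
          · rw [al', vl, ns, h2]
        · refine ⟨Sum.inr true, ?_, ?_⟩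
          · rw [vt', nn]
          · rw [at', vf, ns, hu]
        · refine ⟨Sum.inr false, ?_, ?_⟩
          · rw [vf, ns, hu]
          · rw [af, vt', nn]
      · rintro ⟨(d | c), h1, h2⟩
        · left
          rw [vl, ns] at h1
          rw [al', vl, ns] at h2
          exact (hadj x y).2 ⟨d, h1, h2⟩
        · right
          cases c
          · right
            rw [vf, ns, hu] at h1
            rw [af, vt'] at h2
            exact ⟨h1.symm, h2.symm⟩
          · left
            rw [vt'] at h1
            rw [at', vf, ns, hu] at h2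
            exact ⟨h1.symm, h2.symm⟩
    · simp
    · rw [List.nodup_cons] at hnd
      have hmn : (t.map (Sum.inl : D → D ⊕ Bool)).Nodup := hnd.2.map Sum.inl_injective
      simp only [List.nodup_cons, List.mem_cons, List.mem_append, List.mem_map,
        List.not_mem_nil, or_false, reduceCtorEq, not_false_eq_true, true_and, and_false,
        exists_false, Sum.inr.injEq, Sum.inl.injEq, exists_eq_right]
      refine ⟨hnd.1, ?_⟩
      rw [List.nodup_append]
      refine ⟨hmn, by simp, ?_⟩
      intro x hx y hy
      rw [List.mem_map] at hx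
      obtain ⟨d, -, rfl⟩ := hx
      rw [List.mem_singleton] at hy
      rw [hy]
      simp
    · rw [List.nodup_cons] at hnd
      have hch' : List.IsChain (fun d e => M.σ (M.α d) = e) (a :: (t ++ [a])) := by
        simpa using hch
      have h1 := chain_aux (fun d e => M.σ (M.α d) = e) (fun d e => M'.σ (M'.α d) = e) a
        (fun d h => pa d h) (fun d e h hne => by
          change M.σ (M.α d) = e at h
          subst h
          exact po d hne) pf t a hch' hnd.1
      have h2 : List.IsChain (fun d e => M'.σ (M'.α d) = e)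
          (Sum.inr true :: Sum.inl a ::
            (t.map (Sum.inl : D → D ⊕ Bool) ++ [Sum.inr false, Sum.inr true])) := by
        rw [List.isChain_cons_cons]
        exact ⟨pt, h1⟩
      simpa using h2
    · simp only [List.map_cons, List.map_append, List.map_map, List.map_nil, vt', vl, vf, nn, ns,
        hu, List.cons_append]
      congr 2
      rw [← hl]
      congr 1
      refine List.map_congr_left fun d _ => ?_
      change nm' (M'.vt (Sum.inl d)) = _
      rw [vl, ns]

end Pool.Agent.Helper62.CR
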